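import Mathlib

/-!
# Functions of constant modulus on the circle
-/

set_option autoImplicit false

namespace Pool.Agent.Helper23.KU

open Metric Set Filter Topology Complex

/-- on the unit circle `|1 - conj b z| = |z - b|` -/
lemma norm_one_sub_conj {b z : ℂ} (hz : ‖z‖ = 1) : ‖1 - (starRingEnd ℂ) b * z‖ = ‖z - b‖ := by
  have h1 : (starRingEnd ℂ) z * z = 1 := by
    rw [mul_comm, Complex.mul_conj, Complex.normSq_eq_norm_sq, hz]
    norm_num
  have h2 : 1 - (starRingEnd ℂ) b * z = (starRingEnd ℂ) (z - b) * z := by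
    rw [map_sub, sub_mul, h1]
  rw [h2, norm_mul, Complex.norm_conj, hz, mul_one]

lemma one_sub_conj_ne {b z : ℂ} (hb : ‖b‖ < 1) (hz : ‖z‖ ≤ 1) : 1 - (starRingEnd ℂ) b * z ≠ 0 := by
  intro h
  have h1 : (starRingEnd ℂ) b * z = 1 := (sub_eq_zero.1 h).symm
  have h2 : ‖b‖ * ‖z‖ = 1 := by
    rw [← Complex.norm_conj b, ← norm_mul, h1, norm_one]
  have : ‖b‖ * ‖z‖ < 1 := by
    have := mul_le_mul_of_nonneg_left hz (norm_nonneg b)
    linarith
  linarith

/-- the norm of a function without zeros of constant modulus on the circle -/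
lemma blaschke_const {χ : ℂ → ℂ} {F : ℝ} (hF : 0 < F) (hc : ContinuousOn χ (closedBall 0 1))
    (hd : DifferentiableOn ℂ χ (ball 0 1)) (h1 : ∀ z : ℂ, ‖z‖ = 1 → ‖χ z‖ = F)
    (h0 : ∀ z ∈ closedBall (0 : ℂ) 1, χ z ≠ 0) : ∀ z ∈ ball (0 : ℂ) 1, χ z = χ 0 := by
  have hcl : closure (ball (0 : ℂ) 1) = closedBall 0 1 := closure_ball _ one_ne_zero
  have hfr : frontier (ball (0 : ℂ) 1) = sphere 0 1 := frontier_ball _ one_ne_zero
  have hle : ∀ z ∈ closedBall (0 : ℂ) 1, ‖χ z‖ ≤ F := by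
    intro z hz
    refine Complex.norm_le_of_forall_mem_frontier_norm_le isBounded_ball
      (f := χ) ⟨hd, by rw [hcl]; exact hc⟩ ?_ (by rw [hcl]; exact hz)
    intro w hw
    rw [hfr, mem_sphere_zero_iff_norm] at hw
    exact (h1 w hw).le
  have hge : ∀ z ∈ closedBall (0 : ℂ) 1, F ≤ ‖χ z‖ := by
    intro z hz
    have h2 : ‖(χ z)⁻¹‖ ≤ F⁻¹ := by
      refine Complex.norm_le_of_forall_mem_frontier_norm_le isBounded_ball
        (f := fun z => (χ z)⁻¹)
        ⟨hd.inv fun w hw => h0 w (ball_subset_closedBall hw), by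
          rw [hcl]; exact hc.inv₀ h0⟩ ?_ (by rw [hcl]; exact hz)
      intro w hw
      rw [hfr, mem_sphere_zero_iff_norm] at hw
      rw [norm_inv, h1 w hw]
    rw [norm_inv] at h2
    exact (inv_le_inv₀ (norm_pos_iff.2 (h0 z hz)) hF).1 h2
  have hm : IsMaxOn (norm ∘ χ) (ball (0 : ℂ) 1) 0 := by
    intro z hz
    show ‖χ z‖ ≤ ‖χ 0‖
    exact (hle z (ball_subset_closedBall hz)).trans (hge 0 (mem_closedBall_self zero_le_one))
  intro z hz
  exact Complex.eqOn_of_isPreconnected_of_isMaxOn_norm (convex_ball (0 : ℂ) 1).isPreconnected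
    isOpen_ball hd (mem_ball_self one_pos) hm hz

lemma blaschke_aux {F : ℝ} (hF : 0 < F) {r ρ : ℝ} (hr1 : r < 1) (hρ0 : 0 < ρ)
    {w : ℂ} (hw : w ∈ ball (0 : ℂ) 1)
    (hρ : ∀ b : ℂ, ‖b‖ ≤ r → ‖w - b‖ ≤ ρ * ‖1 - (starRingEnd ℂ) b * w‖) (n : ℕ) :
    ∀ χ : ℂ → ℂ, ContinuousOn χ (closedBall 0 1) → DifferentiableOn ℂ χ (ball 0 1) →
      (∀ z : ℂ, ‖z‖ = 1 → ‖χ z‖ = F) → (∀ z : ℂ, r < ‖z‖ → ‖z‖ ≤ 1 → χ z ≠ 0) →
      F * ρ ^ n < ‖χ w‖ →
    ∃ (s : Multiset ℂ) (κ : ℂ), (∀ b ∈ s, ‖b‖ < 1) ∧ ∀ z ∈ ball (0 : ℂ) 1,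
      χ z * (s.map fun b => 1 - (starRingEnd ℂ) b * z).prod = κ * (s.map fun b => z - b).prod := by
  induction n with
  | zero =>
    intro χ hc hd h1 _ hlt
    exfalso
    have hcl : closure (ball (0 : ℂ) 1) = closedBall 0 1 := closure_ball _ one_ne_zero
    have hfr : frontier (ball (0 : ℂ) 1) = sphere 0 1 := frontier_ball _ one_ne_zero
    have h2 : ‖χ w‖ ≤ F := by
      refine Complex.norm_le_of_forall_mem_frontier_norm_le isBounded_ball
        (f := χ) ⟨hd, by rw [hcl]; exact hc⟩ ?_ (subset_closure hw)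
      intro z hz
      rw [hfr, mem_sphere_zero_iff_norm] at hz
      exact (h1 z hz).le
    rw [pow_zero, mul_one] at hlt
    linarith
  | succ n ih =>
    intro χ hc hd h1 h0 hlt
    by_cases hz : ∀ z ∈ closedBall (0 : ℂ) 1, χ z ≠ 0
    · refine ⟨0, χ 0, by simp, ?_⟩
      intro z hzb
      simp only [Multiset.map_zero, Multiset.prod_zero, mul_one]
      exact blaschke_const hF hc hd h1 hz z hzb
    · push Not at hz
      obtain ⟨b, hb, hb0⟩ := hz
      have hbr : ‖b‖ ≤ r := by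
        by_contra h
        push Not at h
        exact h0 b h (by simpa using hb) hb0
      have hb1 : ‖b‖ < 1 := lt_of_le_of_lt hbr hr1
      have hbb : b ∈ ball (0 : ℂ) 1 := by simpa using hb1
      have hds : ∀ z, χ z = (z - b) * dslope χ b z := by
        intro z
        have := sub_smul_dslope χ b z
        rw [hb0, sub_zero, smul_eq_mul] at this
        exact this.symm
      set χ1 : ℂ → ℂ := fun z => (1 - (starRingEnd ℂ) b * z) * dslope χ b z with hχ1
      have hrel : ∀ z, (z - b) * χ1 z = χ z * (1 - (starRingEnd ℂ) b * z) := by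
        intro z
        rw [hds z, hχ1]
        ring
      have hc1 : ContinuousOn χ1 (closedBall 0 1) := by
        refine ContinuousOn.mul (by fun_prop) ?_
        refine (continuousOn_dslope ?_).2 ⟨hc, ?_⟩
        · exact mem_of_superset (isOpen_ball.mem_nhds hbb) ball_subset_closedBall
        · exact hd.differentiableAt (isOpen_ball.mem_nhds hbb)
      have hd1 : DifferentiableOn ℂ χ1 (ball 0 1) := by
        refine DifferentiableOn.mul (by fun_prop) ?_
        exact (Complex.differentiableOn_dslope (isOpen_ball.mem_nhds hbb)).2 hd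
      clear_value χ1
      have hn1 : ∀ z : ℂ, ‖z‖ = 1 → ‖χ1 z‖ = F := by
        intro z hz
        have hzb : z - b ≠ 0 := by
          intro h
          rw [sub_eq_zero.1 h] at hz
          linarith
        have h3 := congrArg norm (hrel z)
        rw [norm_mul, norm_mul, norm_one_sub_conj hz, h1 z hz, mul_comm] at h3
        exact mul_right_cancel₀ (norm_ne_zero_iff.2 hzb) h3
      have h01 : ∀ z : ℂ, r < ‖z‖ → ‖z‖ ≤ 1 → χ1 z ≠ 0 := by
        intro z hz hz1 h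
        have h3 := hrel z
        rw [h, mul_zero] at h3
        exact mul_ne_zero (h0 z hz hz1) (one_sub_conj_ne hb1 hz1) h3.symm
      have hw1 : ‖w‖ ≤ 1 := by
        have : ‖w‖ < 1 := by simpa using hw
        exact this.le
      have hlt1 : F * ρ ^ n < ‖χ1 w‖ := by
        have h3 := congrArg norm (hrel w)
        rw [norm_mul, norm_mul] at h3
        have h4 := hρ b hbr
        have h5 : 0 < ‖1 - (starRingEnd ℂ) b * w‖ := norm_pos_iff.2 (one_sub_conj_ne hb1 hw1)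
        have h6 : ‖χ w‖ ≤ ρ * ‖χ1 w‖ := by
          have h7 : ‖w - b‖ * ‖χ1 w‖ ≤ ρ * ‖1 - (starRingEnd ℂ) b * w‖ * ‖χ1 w‖ :=
            mul_le_mul_of_nonneg_right h4 (norm_nonneg _)
          rw [h3] at h7
          have h8 : ‖χ w‖ * ‖1 - (starRingEnd ℂ) b * w‖ ≤
              (ρ * ‖χ1 w‖) * ‖1 - (starRingEnd ℂ) b * w‖ := by linarith
          exact le_of_mul_le_mul_right h8 h5
        have h9 : ρ * (F * ρ ^ n) < ρ * ‖χ1 w‖ := by
          calc ρ * (F * ρ ^ n) = F * ρ ^ (n + 1) := by ring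
            _ < ‖χ w‖ := hlt
            _ ≤ _ := h6
        exact lt_of_mul_lt_mul_left h9 hρ0.le
      obtain ⟨s, κ, hs, hk⟩ := ih χ1 hc1 hd1 hn1 h01 hlt1
      refine ⟨b ::ₘ s, κ, ?_, ?_⟩
      · intro a ha
        rcases Multiset.mem_cons.1 ha with rfl | ha
        · exact hb1
        · exact hs a ha
      · intro z hz
        rw [Multiset.map_cons, Multiset.map_cons, Multiset.prod_cons, Multiset.prod_cons,
          ← mul_assoc, ← hrel z, mul_assoc, hk z hz]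
        ring

theorem blaschke {χ : ℂ → ℂ} {F : ℝ} (hF : 0 < F) (hc : ContinuousOn χ (closedBall 0 1))
    (hd : DifferentiableOn ℂ χ (ball 0 1)) (h1 : ∀ z : ℂ, ‖z‖ = 1 → ‖χ z‖ = F) :
    ∃ (s : Multiset ℂ) (κ : ℂ), (∀ b ∈ s, ‖b‖ < 1) ∧ ∀ z ∈ ball (0 : ℂ) 1,
      χ z * (s.map fun b => 1 - (starRingEnd ℂ) b * z).prod = κ * (s.map fun b => z - b).prod := by
  -- no zeros near the circle
  have hZ : IsCompact {z : ℂ | z ∈ closedBall (0 : ℂ) 1 ∧ χ z = 0} := by
    have : {z : ℂ | z ∈ closedBall (0 : ℂ) 1 ∧ χ z = 0} = closedBall 0 1 ∩ χ ⁻¹' {0} := by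
      ext z; simp
    rw [this]
    exact (isCompact_closedBall (0 : ℂ) 1).of_isClosed_subset
      (hc.preimage_isClosed_of_isClosed isClosed_closedBall isClosed_singleton) inter_subset_left
  obtain ⟨r, hr0, hr1, hr⟩ : ∃ r : ℝ, 0 < r ∧ r < 1 ∧ ∀ z : ℂ, r < ‖z‖ → ‖z‖ ≤ 1 → χ z ≠ 0 := by
    by_cases hne : {z : ℂ | z ∈ closedBall (0 : ℂ) 1 ∧ χ z = 0}.Nonempty
    · obtain ⟨b, hb, hmax⟩ := hZ.exists_isMaxOn hne continuous_norm.continuousOn
      have hb1 : ‖b‖ < 1 := by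
        have hb1 : ‖b‖ ≤ 1 := by simpa using hb.1
        rcases hb1.lt_or_eq with h | h
        · exact h
        · exfalso
          have := h1 b h
          rw [hb.2, norm_zero] at this
          linarith
      refine ⟨(1 + ‖b‖) / 2, by positivity, by linarith, ?_⟩
      intro z hz hz1 h0
      have h2 : ‖z‖ ≤ ‖b‖ := hmax (show z ∈ {z : ℂ | z ∈ closedBall (0 : ℂ) 1 ∧ χ z = 0} from
        ⟨by simpa using hz1, h0⟩)
      linarith
    · refine ⟨1 / 2, by norm_num, by norm_num, ?_⟩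
      intro z _ hz1 h0
      exact hne ⟨z, by simpa using hz1, h0⟩
  -- the point
  obtain ⟨w, hw1, hwr⟩ : ∃ w : ℂ, ‖w‖ < 1 ∧ r < ‖w‖ := by
    refine ⟨(((1 + r) / 2 : ℝ) : ℂ), ?_, ?_⟩ <;>
    · rw [Complex.norm_real, Real.norm_eq_abs, abs_of_pos (by linarith)]
      linarith
  have hw0 : χ w ≠ 0 := hr w hwr hw1.le
  -- the constant
  obtain ⟨ρ, hρ0, hρ1, hρ⟩ : ∃ ρ : ℝ, 0 < ρ ∧ ρ < 1 ∧ ∀ b : ℂ, ‖b‖ ≤ r →
      ‖w - b‖ ≤ ρ * ‖1 - (starRingEnd ℂ) b * w‖ := by
    have hcont : ContinuousOn (fun b : ℂ => ‖w - b‖ / ‖1 - (starRingEnd ℂ) b * w‖)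
        (closedBall 0 r) := by
      refine ContinuousOn.div (by fun_prop) ?_ ?_
      · exact ((continuous_const.sub (Complex.continuous_conj.mul continuous_const)).norm).continuousOn
      · intro b hb
        have hb1 : ‖b‖ ≤ r := by simpa using hb
        exact norm_ne_zero_iff.2 (one_sub_conj_ne (by linarith) hw1.le)
    obtain ⟨b0, hb0, hmax⟩ := (isCompact_closedBall (0 : ℂ) r).exists_isMaxOn
      ⟨0, by simpa using hr0.le⟩ hcont
    have hb0r : ‖b0‖ ≤ r := by simpa using hb0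
    have hb1 : ‖b0‖ < 1 := by linarith
    have hpos : 0 < ‖1 - (starRingEnd ℂ) b0 * w‖ := norm_pos_iff.2 (one_sub_conj_ne hb1 hw1.le)
    have hlt : ‖w - b0‖ / ‖1 - (starRingEnd ℂ) b0 * w‖ < 1 := by
      rw [div_lt_one hpos]
      have h2 : ‖w - b0‖ ^ 2 < ‖1 - (starRingEnd ℂ) b0 * w‖ ^ 2 := by
        have e1 : ‖1 - (starRingEnd ℂ) b0 * w‖ ^ 2 - ‖w - b0‖ ^ 2 =
            (1 - ‖b0‖ ^ 2) * (1 - ‖w‖ ^ 2) := by
          rw [← Complex.normSq_eq_norm_sq, ← Complex.normSq_eq_norm_sq,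
            ← Complex.normSq_eq_norm_sq, ← Complex.normSq_eq_norm_sq]
          simp only [Complex.normSq_apply, Complex.sub_re, Complex.sub_im, Complex.mul_re,
            Complex.mul_im, Complex.conj_re, Complex.conj_im, Complex.one_re, Complex.one_im]
          ring
        have h3 : ‖b0‖ ^ 2 < 1 := by
          have := norm_nonneg b0
          nlinarith
        have h4 : ‖w‖ ^ 2 < 1 := by
          have := norm_nonneg w
          nlinarith
        have := mul_pos (sub_pos.2 h3) (sub_pos.2 h4)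
        linarith
      exact lt_of_pow_lt_pow_left₀ 2 (norm_nonneg _) h2
    refine ⟨(1 + ‖w - b0‖ / ‖1 - (starRingEnd ℂ) b0 * w‖) / 2, by positivity, by linarith, ?_⟩
    intro b hb
    have hb1' : ‖b‖ < 1 := by linarith
    have hpos' : 0 < ‖1 - (starRingEnd ℂ) b * w‖ := norm_pos_iff.2 (one_sub_conj_ne hb1' hw1.le)
    have h2 : ‖w - b‖ / ‖1 - (starRingEnd ℂ) b * w‖ ≤ ‖w - b0‖ / ‖1 - (starRingEnd ℂ) b0 * w‖ :=
      hmax (show b ∈ closedBall (0 : ℂ) r by simpa using hb)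
    have h3 : ‖w - b‖ / ‖1 - (starRingEnd ℂ) b * w‖ ≤
        (1 + ‖w - b0‖ / ‖1 - (starRingEnd ℂ) b0 * w‖) / 2 := by linarith
    exact (div_le_iff₀ hpos').1 h3
  -- the number of steps
  obtain ⟨n, hn⟩ : ∃ n : ℕ, F * ρ ^ n < ‖χ w‖ := by
    obtain ⟨n, hn⟩ := exists_pow_lt_of_lt_one (div_pos (norm_pos_iff.2 hw0) hF) hρ1
    refine ⟨n, ?_⟩
    rw [lt_div_iff₀ hF] at hn
    linarith
  exact blaschke_aux hF hr1 hρ0 (by simpa using hw1) hρ n χ hc hd h1 hr hn

end Pool.Agent.Helper23.KU
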