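import Mathlib

/-!
# Logarithms on the disc, limits at the circle
-/

set_option autoImplicit false

namespace Pool.Agent.Helper23.KU

open Metric Set Filter Topology Complex

theorem log_exists {χ : ℂ → ℂ} (hd : DifferentiableOn ℂ χ (ball 0 1))
    (h0 : ∀ z ∈ ball (0 : ℂ) 1, χ z ≠ 0) :
    ∃ H : ℂ → ℂ, DifferentiableOn ℂ H (ball 0 1) ∧
      ∀ z ∈ ball (0 : ℂ) 1, χ z = Complex.exp (H z) := by
  have hder : DifferentiableOn ℂ (fun z => deriv χ z / χ z) (ball 0 1) :=
    (hd.deriv isOpen_ball).div hd h0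
  obtain ⟨G, hG⟩ := hder.isExactOn_ball
  have h00 : (0 : ℂ) ∈ ball (0 : ℂ) 1 := mem_ball_self one_pos
  set H : ℂ → ℂ := fun z => G z - G 0 + Complex.log (χ 0) with hH
  have hHd : ∀ z ∈ ball (0 : ℂ) 1, HasDerivAt H (deriv χ z / χ z) z := by
    intro z hz
    exact ((hG z hz).sub_const _).add_const _
  refine ⟨H, fun z hz => (hHd z hz).differentiableAt.differentiableWithinAt, ?_⟩
  have hq : ∀ z ∈ ball (0 : ℂ) 1, HasDerivAt (fun z => χ z * Complex.exp (-H z)) 0 z := by
    intro z hz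
    have h1 : HasDerivAt χ (deriv χ z) z :=
      (hd.differentiableAt (isOpen_ball.mem_nhds hz)).hasDerivAt
    have h2 := h1.mul ((hHd z hz).neg.cexp)
    refine h2.congr_deriv ?_
    have := h0 z hz
    field_simp
    ring
  have hconst : ∀ z ∈ ball (0 : ℂ) 1, χ z * Complex.exp (-H z) = χ 0 * Complex.exp (-H 0) := by
    intro z hz
    have := (convex_ball (0 : ℂ) 1).is_const_of_fderivWithin_eq_zero (𝕜 := ℂ)
      (f := fun z => χ z * Complex.exp (-H z))
      (fun w hw => (hq w hw).differentiableAt.differentiableWithinAt)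
      (fun w hw => by
        rw [fderivWithin_of_isOpen isOpen_ball hw]
        have := (hq w hw).hasFDerivAt.fderiv
        rw [this]
        ext
        simp) hz h00
    exact this
  intro z hz
  have h1 := hconst z hz
  have h2 : χ 0 * Complex.exp (-H 0) = 1 := by
    have : H 0 = Complex.log (χ 0) := by rw [hH]; simp
    rw [this, Complex.exp_neg, Complex.exp_log (h0 0 h00), mul_inv_cancel₀ (h0 0 h00)]
  rw [h2, Complex.exp_neg] at h1
  have h3 := Complex.exp_ne_zero (H z)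
  field_simp at h1
  exact h1

theorem le_of_lim {χ : ℂ → ℂ} {F : ℝ} (hF : 0 ≤ F) (hd : DifferentiableOn ℂ χ (ball 0 1))
    (h : ∀ δ > 0, ∃ r < 1, ∀ z : ℂ, r ≤ ‖z‖ → ‖z‖ < 1 → ‖χ z‖ ≤ F * (1 + δ)) :
    ∀ z ∈ ball (0 : ℂ) 1, ‖χ z‖ ≤ F := by
  intro z hz
  have hz1 : ‖z‖ < 1 := by simpa using hz
  have key : ∀ δ > 0, ‖χ z‖ ≤ F * (1 + δ) := by
    intro δ hδ
    obtain ⟨r, hr1, hr⟩ := h δ hδ
    set R : ℝ := (max (max r ‖z‖) 0 + 1) / 2 with hR
    have hm1 : max (max r ‖z‖) 0 < 1 := max_lt (max_lt hr1 hz1) one_pos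
    have hm0 : 0 ≤ max (max r ‖z‖) 0 := le_max_right _ _
    have hR1 : R < 1 := by rw [hR]; linarith
    have hRm : max (max r ‖z‖) 0 < R := by rw [hR]; linarith
    have hR0 : 0 < R := lt_of_le_of_lt hm0 hRm
    have hRr : r < R := lt_of_le_of_lt ((le_max_left _ _).trans (le_max_left _ _)) hRm
    have hRz : ‖z‖ < R := lt_of_le_of_lt ((le_max_right _ _).trans (le_max_left _ _)) hRm
    have hsub : closedBall (0 : ℂ) R ⊆ ball 0 1 := closedBall_subset_ball hR1
    refine Complex.norm_le_of_forall_mem_frontier_norm_le (U := ball (0 : ℂ) R) isBounded_ball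
      (f := χ) ⟨hd.mono (ball_subset_closedBall.trans hsub), ?_⟩ ?_ ?_
    · rw [closure_ball _ hR0.ne']
      exact hd.continuousOn.mono hsub
    · intro w hw
      rw [frontier_ball _ hR0.ne', mem_sphere_zero_iff_norm] at hw
      exact hr w (by rw [hw]; exact hRr.le) (by rw [hw]; exact hR1)
    · exact subset_closure (by simpa using hRz)
  by_contra hlt
  push Not at hlt
  have hp : 0 < ‖χ z‖ - F := by linarith
  have h1 := key ((‖χ z‖ - F) / (2 * (F + 1))) (by positivity)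
  have h2 : F * (1 + (‖χ z‖ - F) / (2 * (F + 1))) =
      F + (‖χ z‖ - F) * (F / (2 * (F + 1))) := by
    field_simp
  have h3 : F / (2 * (F + 1)) ≤ 1 / 2 := by
    rw [div_le_div_iff₀ (by positivity) (by norm_num)]
    nlinarith
  have h4 := mul_le_mul_of_nonneg_left h3 hp.le
  rw [h2] at h1
  linarith

theorem re_min {H : ℂ → ℂ} (hd : DifferentiableOn ℂ H (ball 0 1)) {M : ℝ}
    (h : ∀ z ∈ ball (0 : ℂ) 1, -M ≤ (H z).re) {w : ℂ} (hw : w ∈ ball (0 : ℂ) 1)
    (he : (H w).re = -M) : ∀ z ∈ ball (0 : ℂ) 1, (H z).re = -M := by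
  have hE : DifferentiableOn ℂ (fun z => Complex.exp (-H z)) (ball 0 1) := hd.neg.cexp
  have hn : ∀ z, ‖Complex.exp (-H z)‖ = Real.exp (-(H z).re) := by
    intro z
    rw [Complex.norm_exp, Complex.neg_re]
  have hm : IsMaxOn (norm ∘ fun z => Complex.exp (-H z)) (ball (0 : ℂ) 1) w := by
    intro z hz
    show ‖Complex.exp (-H z)‖ ≤ ‖Complex.exp (-H w)‖
    rw [hn, hn]
    apply Real.exp_le_exp.2
    have := h z hz
    linarith
  intro z hz
  have h1 := Complex.norm_eqOn_of_isPreconnected_of_isMaxOn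
    (convex_ball (0 : ℂ) 1).isPreconnected isOpen_ball hE hw hm hz
  have h2 : ‖Complex.exp (-H z)‖ = ‖Complex.exp (-H w)‖ := h1
  rw [hn, hn] at h2
  have h3 := Real.exp_injective h2
  linarith

end Pool.Agent.Helper23.KU
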