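import Pool.Agent.Helper23.KU.ZDefs

/-!
# Contact: combinations of functions bounded by `1 - |Θ|^2` on a circle
-/

set_option autoImplicit false

namespace Pool.Agent.Helper23.KU

open Filter Topology Metric Set

/-- Taylor expansion with an analytic rest -/
theorem taylor_at {b : ℂ → ℂ} {ζ : ℂ} (hb : AnalyticAt ℂ b ζ) (M : ℕ) :
    ∃ (a : ℕ → ℂ) (g : ℂ → ℂ), AnalyticAt ℂ g ζ ∧
      ∀ᶠ z in 𝓝 ζ, b z = ∑ j ∈ Finset.range M, a j * (z - ζ) ^ j + (z - ζ) ^ M * g z := by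
  induction M with
  | zero => exact ⟨fun _ => 0, b, hb, Eventually.of_forall fun z => by simp⟩
  | succ M ih =>
    obtain ⟨a, g, hg, he⟩ := ih
    obtain ⟨p, hp⟩ := hg
    refine ⟨Function.update a M (g ζ), dslope g ζ,
      ⟨p.fslope, hp.has_fpower_series_dslope_fslope⟩, ?_⟩
    filter_upwards [he] with z hz
    have h1 : g z = g ζ + (z - ζ) * dslope g ζ z := by
      have := sub_smul_dslope g ζ z
      rw [smul_eq_mul] at this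
      rw [this]; ring
    have h2 : ∑ j ∈ Finset.range M, Function.update a M (g ζ) j * (z - ζ) ^ j =
        ∑ j ∈ Finset.range M, a j * (z - ζ) ^ j := by
      refine Finset.sum_congr rfl fun j hj => ?_
      rw [Function.update_of_ne (Finset.mem_range.1 hj).ne]
    rw [Finset.sum_range_succ, h2, Function.update_self, hz, h1]
    ring

/-- local bound for a quotient -/
theorem quot_bound {b k κ G : ℂ → ℂ} {ζ : ℂ} {m M : ℕ} (hκ : ContinuousAt κ ζ) (hκ0 : κ ζ ≠ 0)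
    (hG : ContinuousAt G ζ) (hmM : m ≤ M) (hk : ∀ᶠ z in 𝓝 ζ, k z = (z - ζ) ^ m * κ z)
    (hb : ∀ᶠ z in 𝓝 ζ, b z = (z - ζ) ^ M * G z) :
    ∃ C : ℝ, ∀ᶠ z in 𝓝 ζ, ‖b z‖ ≤ C * ‖k z‖ := by
  have hκp : 0 < ‖κ ζ‖ := norm_pos_iff.2 hκ0
  refine ⟨(‖G ζ‖ + 1) / (‖κ ζ‖ / 2), ?_⟩
  have h1 : ∀ᶠ z in 𝓝 ζ, ‖G z‖ < ‖G ζ‖ + 1 :=
    hG.norm.eventually (gt_mem_nhds (by linarith))
  have h2 : ∀ᶠ z in 𝓝 ζ, ‖κ ζ‖ / 2 < ‖κ z‖ :=
    hκ.norm.eventually (lt_mem_nhds (by linarith))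
  have h3 : ∀ᶠ z in 𝓝 ζ, ‖z - ζ‖ ≤ 1 := by
    filter_upwards [closedBall_mem_nhds ζ one_pos] with z hz
    rwa [mem_closedBall, dist_eq_norm] at hz
  filter_upwards [hk, hb, h1, h2, h3] with z e1 e2 e3 e4 e5
  rw [e1, e2, norm_mul, norm_mul, norm_pow, norm_pow]
  have h4 : ‖z - ζ‖ ^ M ≤ ‖z - ζ‖ ^ m := pow_le_pow_of_le_one (norm_nonneg _) e5 hmM
  have h5 : 0 ≤ ‖z - ζ‖ ^ m := pow_nonneg (norm_nonneg _) _
  calc ‖z - ζ‖ ^ M * ‖G z‖ ≤ ‖z - ζ‖ ^ m * (‖G ζ‖ + 1) :=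
        mul_le_mul h4 e3.le (norm_nonneg _) h5
    _ = (‖G ζ‖ + 1) / (‖κ ζ‖ / 2) * (‖z - ζ‖ ^ m * (‖κ ζ‖ / 2)) := by
        field_simp
    _ ≤ (‖G ζ‖ + 1) / (‖κ ζ‖ / 2) * (‖z - ζ‖ ^ m * ‖κ z‖) :=
        mul_le_mul_of_nonneg_left (mul_le_mul_of_nonneg_left e4.le h5) (by positivity)

/-- the inversion in the circle -/
theorem circle_inv {c : ℝ} {ζ : ℂ} (h0 : 0 < c) (hζ : ‖ζ‖ = c) :
    ζ ≠ 0 ∧ (c : ℂ) ^ 2 / ζ = (starRingEnd ℂ) ζ := by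
  have h1 : ζ ≠ 0 := by
    rw [← norm_pos_iff, hζ]; exact h0
  refine ⟨h1, ?_⟩
  rw [div_eq_iff h1, mul_comm, Complex.mul_conj, Complex.normSq_eq_norm_sq, hζ]
  push_cast
  rfl

/-- the reflected function -/
theorem star_analytic {c : ℝ} (h0 : 0 < c) {F : ℂ → ℂ} {U : Set ℂ} (hU : IsOpen U)
    (hcU : ∀ z : ℂ, ‖z‖ = c → z ∈ U) (hF : DifferentiableOn ℂ F U) {ζ : ℂ} (hζ : ‖ζ‖ = c) :
    AnalyticAt ℂ (fun z => (starRingEnd ℂ) (F ((starRingEnd ℂ) ((c : ℂ) ^ 2 / z)))) ζ := by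
  obtain ⟨hz0, hinv⟩ := circle_inv h0 hζ
  have hV : IsOpen ((starRingEnd ℂ) ⁻¹' U) := hU.preimage Complex.continuous_conj
  have hd : DifferentiableOn ℂ (fun w => (starRingEnd ℂ) (F ((starRingEnd ℂ) w)))
      ((starRingEnd ℂ) ⁻¹' U) := by
    intro w hw
    have h1 : DifferentiableAt ℂ F ((starRingEnd ℂ) w) := hF.differentiableAt (hU.mem_nhds hw)
    have h2 := h1.conj_conj
    rw [Complex.conj_conj] at h2
    exact h2.differentiableWithinAt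
  have hm : (starRingEnd ℂ) ζ ∈ (starRingEnd ℂ) ⁻¹' U := by
    show (starRingEnd ℂ) ((starRingEnd ℂ) ζ) ∈ U
    rw [Complex.conj_conj]
    exact hcU ζ hζ
  have ha : AnalyticAt ℂ (fun w => (starRingEnd ℂ) (F ((starRingEnd ℂ) w)))
      ((fun z : ℂ => (c : ℂ) ^ 2 / z) ζ) := by
    show AnalyticAt ℂ _ ((c : ℂ) ^ 2 / ζ)
    rw [hinv]
    exact hd.analyticAt (hV.mem_nhds hm)
  have hi : AnalyticAt ℂ (fun z : ℂ => (c : ℂ) ^ 2 / z) ζ :=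
    analyticAt_const.div analyticAt_id hz0
  exact ha.comp hi

theorem contact {c : ℝ} (h0 : 0 < c) {Θ : ℂ → ℂ} {U : Set ℂ} (hU : IsOpen U)
    (hcU : ∀ z : ℂ, ‖z‖ = c → z ∈ U) (hΘ : DifferentiableOn ℂ Θ U)
    (hle : ∀ z : ℂ, ‖z‖ = c → ‖Θ z‖ ≤ 1) (hne : ∃ z : ℂ, ‖z‖ = c ∧ ‖Θ z‖ ≠ 1) :
    ∃ n : ℕ, ∀ Bs : Fin (n + 1) → ℂ → ℂ, (∀ i, DifferentiableOn ℂ (Bs i) U) →
      ∃ x : Fin (n + 1) → ℝ, x ≠ 0 ∧ ∃ C : ℝ, ∀ z : ℂ, ‖z‖ = c →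
        |(∑ i, (x i : ℂ) * Bs i z).re| ≤ C * (1 - ‖Θ z‖ ^ 2) := by
  obtain ⟨k, hk⟩ : ∃ k : ℂ → ℂ, k = fun z => 1 - Θ z *
      (starRingEnd ℂ) (Θ ((starRingEnd ℂ) ((c : ℂ) ^ 2 / z))) := ⟨_, rfl⟩
  have hka : ∀ ζ : ℂ, ‖ζ‖ = c → AnalyticAt ℂ k ζ := by
    intro ζ hζ
    rw [hk]
    exact analyticAt_const.sub ((hΘ.analyticAt (hU.mem_nhds (hcU ζ hζ))).mul
      (star_analytic h0 hU hcU hΘ hζ))
  have hkv : ∀ ζ : ℂ, ‖ζ‖ = c → k ζ = ((1 - ‖Θ ζ‖ ^ 2 : ℝ) : ℂ) := by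
    intro ζ hζ
    rw [hk]
    simp only
    rw [(circle_inv h0 hζ).2, Complex.conj_conj, Complex.mul_conj, Complex.normSq_eq_norm_sq]
    push_cast
    rfl
  have hK : IsCompact (sphere (0 : ℂ) c) := isCompact_sphere 0 c
  have hpre : IsPreconnected (sphere (0 : ℂ) c) :=
    isPreconnected_sphere (by simp) 0 c
  have hms : ∀ z : ℂ, z ∈ sphere (0 : ℂ) c ↔ ‖z‖ = c := fun z => mem_sphere_zero_iff_norm
  have hon : AnalyticOnNhd ℂ k (sphere (0 : ℂ) c) := fun z hz => hka z ((hms z).1 hz)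
  -- the orders
  have hord : ∀ ζ : ℂ, ∃ (m : ℕ) (κ : ℂ → ℂ), ‖ζ‖ = c →
      (AnalyticAt ℂ κ ζ ∧ κ ζ ≠ 0 ∧ ∀ᶠ z in 𝓝 ζ, k z = (z - ζ) ^ m * κ z) := by
    intro ζ
    by_cases hζ : ‖ζ‖ = c
    · have hnz : ¬ ∀ᶠ z in 𝓝 ζ, k z = 0 := by
        intro hz
        obtain ⟨z1, hz1, hz2⟩ := hne
        have h1 := hon.eqOn_zero_of_preconnected_of_eventuallyEq_zero hpre ((hms ζ).2 hζ) hz
          ((hms z1).2 hz1)
        rw [hkv z1 hz1, Pi.zero_apply, Complex.ofReal_eq_zero] at h1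
        have h2 : ‖Θ z1‖ ^ 2 = 1 := by linarith
        exact hz2 ((pow_eq_one_iff_of_nonneg (norm_nonneg _) two_ne_zero).1 h2)
      obtain ⟨m, κ, h1, h2, h3⟩ := (hka ζ hζ).exists_eventuallyEq_pow_smul_nonzero_iff.2 hnz
      exact ⟨m, κ, fun _ => ⟨h1, h2, h3⟩⟩
    · exact ⟨0, 0, fun h => absurd h hζ⟩
  choose m κ hmk using hord
  -- the zeros on the circle
  obtain ⟨T, hT1, hT2⟩ : ∃ T : Finset ℂ, (∀ ζ ∈ T, ‖ζ‖ = c) ∧
      ∀ z ∈ sphere (0 : ℂ) c, k z = 0 → z ∈ T := by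
    classical
    refine hK.induction_on (p := fun s => ∃ T : Finset ℂ, (∀ ζ ∈ T, ‖ζ‖ = c) ∧
      ∀ z ∈ s, k z = 0 → z ∈ T) ?_ ?_ ?_ ?_
    · exact ⟨∅, by simp, by simp⟩
    · rintro s t hst ⟨T, h1, h2⟩
      exact ⟨T, h1, fun z hz => h2 z (hst hz)⟩
    · rintro s t ⟨T, h1, h2⟩ ⟨T', h1', h2'⟩
      refine ⟨T ∪ T', ?_, ?_⟩
      · intro ζ hζ
        rcases Finset.mem_union.1 hζ with h | h
        · exact h1 ζ h
        · exact h1' ζ h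
      · rintro z (hz | hz) hk0
        · exact Finset.mem_union_left _ (h2 z hz hk0)
        · exact Finset.mem_union_right _ (h2' z hz hk0)
    · intro ζ hζ
      have hζc := (hms ζ).1 hζ
      obtain ⟨h1, h2, h3⟩ := hmk ζ hζc
      have h4 : ∀ᶠ z in 𝓝 ζ, κ ζ z ≠ 0 := h1.continuousAt.eventually_ne h2
      refine ⟨{z | k z = (z - ζ) ^ m ζ * κ ζ z ∧ κ ζ z ≠ 0}, mem_nhdsWithin_of_mem_nhds
        (h3.and h4), {ζ}, ?_, ?_⟩
      · intro w hw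
        rw [Finset.mem_singleton.1 hw]
        exact hζc
      · intro z hz hk0
        rw [Finset.mem_singleton]
        by_contra hzζ
        rw [hz.1] at hk0
        exact mul_ne_zero (pow_ne_zero _ (sub_ne_zero.2 hzζ)) hz.2 hk0
  set M : ℕ := T.sup m with hM
  refine ⟨T.card * M * 2, fun Bs hBs => ?_⟩
  -- the functions
  obtain ⟨bi, hbi⟩ : ∃ bi : Fin (T.card * M * 2 + 1) → ℂ → ℂ, bi = fun i z => (Bs i z +
      (starRingEnd ℂ) (Bs i ((starRingEnd ℂ) ((c : ℂ) ^ 2 / z)))) / 2 := ⟨_, rfl⟩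
  have hbia : ∀ i, ∀ ζ : ℂ, ‖ζ‖ = c → AnalyticAt ℂ (bi i) ζ := by
    intro i ζ hζ
    rw [hbi]
    exact (((hBs i).analyticAt (hU.mem_nhds (hcU ζ hζ))).add
      (star_analytic h0 hU hcU (hBs i) hζ)).div analyticAt_const two_ne_zero
  have hbiv : ∀ i, ∀ ζ : ℂ, ‖ζ‖ = c → bi i ζ = (((Bs i ζ).re : ℝ) : ℂ) := by
    intro i ζ hζ
    rw [hbi]
    simp only
    rw [(circle_inv h0 hζ).2, Complex.conj_conj, Complex.re_eq_add_conj]
  have htay : ∀ (i : Fin (T.card * M * 2 + 1)) (ζ : ℂ), ∃ (a : ℕ → ℂ) (g : ℂ → ℂ), ‖ζ‖ = c →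
      (AnalyticAt ℂ g ζ ∧ ∀ᶠ z in 𝓝 ζ,
        bi i z = ∑ j ∈ Finset.range M, a j * (z - ζ) ^ j + (z - ζ) ^ M * g z) := by
    intro i ζ
    by_cases hζ : ‖ζ‖ = c
    · obtain ⟨a, g, h1, h2⟩ := taylor_at (hbia i ζ hζ) M
      exact ⟨a, g, fun _ => ⟨h1, h2⟩⟩
    · exact ⟨0, 0, fun h => absurd h hζ⟩
  choose a g hag using htay
  -- linear algebra
  obtain ⟨x, hx0, hx⟩ : ∃ x : Fin (T.card * M * 2 + 1) → ℝ, x ≠ 0 ∧
      ∀ ζ ∈ T, ∀ j < M, ∑ i, (x i : ℂ) * a i ζ j = 0 := by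
    set v : Fin (T.card * M * 2 + 1) → (T × Fin M → ℂ) := fun i p => a i p.1 p.2 with hv
    have hfr : Module.finrank ℝ (T × Fin M → ℂ) < Module.finrank ℝ
        (Fin (T.card * M * 2 + 1) → ℝ) := by
      rw [Module.finrank_pi_fintype, Module.finrank_fin_fun]
      simp [Complex.finrank_real_complex]
    have hker := LinearMap.ker_ne_bot_of_finrank_lt (f := Fintype.linearCombination ℝ v) hfr
    obtain ⟨x, hx, hx0⟩ := Submodule.exists_mem_ne_zero_of_ne_bot hker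
    refine ⟨x, hx0, fun ζ hζ j hj => ?_⟩
    have h1 := congrFun (LinearMap.mem_ker.1 hx) (⟨ζ, hζ⟩, ⟨j, hj⟩)
    rw [Fintype.linearCombination_apply] at h1
    simpa [Finset.sum_apply, hv] using h1
  refine ⟨x, hx0, ?_⟩
  obtain ⟨b, hb⟩ : ∃ b : ℂ → ℂ, b = fun z => ∑ i, (x i : ℂ) * bi i z := ⟨_, rfl⟩
  have hbc : ∀ ζ : ℂ, ‖ζ‖ = c → ContinuousAt b ζ := by
    intro ζ hζ
    rw [hb]
    exact tendsto_finsetSum _ fun i _ => ((hbia i ζ hζ).continuousAt).const_mul _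
  -- local bounds
  have hloc : ∀ ζ : ℂ, ‖ζ‖ = c → ∃ C : ℝ, ∀ᶠ z in 𝓝 ζ, ‖b z‖ ≤ C * ‖k z‖ := by
    intro ζ hζ
    by_cases hζT : ζ ∈ T
    · obtain ⟨h1, h2, h3⟩ := hmk ζ hζ
      refine quot_bound (κ := κ ζ) (G := fun z => ∑ i, (x i : ℂ) * g i ζ z) (m := m ζ) (M := M)
        h1.continuousAt h2 ?_ (Finset.le_sup hζT) h3 ?_
      · exact tendsto_finsetSum _ fun i _ => ((hag i ζ hζ).1.continuousAt).const_mul _
      · have h4 : ∀ᶠ z in 𝓝 ζ, ∀ i, bi i z = ∑ j ∈ Finset.range M, a i ζ j * (z - ζ) ^ j +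
            (z - ζ) ^ M * g i ζ z := eventually_all.2 fun i => (hag i ζ hζ).2
        filter_upwards [h4] with z hz
        have h5 : ∑ i, (x i : ℂ) * ∑ j ∈ Finset.range M, a i ζ j * (z - ζ) ^ j = 0 := by
          have h6 : ∀ i, (x i : ℂ) * ∑ j ∈ Finset.range M, a i ζ j * (z - ζ) ^ j =
              ∑ j ∈ Finset.range M, ((x i : ℂ) * a i ζ j) * (z - ζ) ^ j := by
            intro i
            rw [Finset.mul_sum]
            exact Finset.sum_congr rfl fun j _ => by ring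
          simp only [h6]
          rw [Finset.sum_comm]
          refine Finset.sum_eq_zero fun j hj => ?_
          rw [← Finset.sum_mul, hx ζ hζT j (Finset.mem_range.1 hj), zero_mul]
        rw [hb]
        simp only [hz, mul_add, Finset.sum_add_distrib, h5, zero_add]
        rw [Finset.mul_sum]
        exact Finset.sum_congr rfl fun i _ => by ring
    · have hk0 : k ζ ≠ 0 := fun h => hζT (hT2 ζ ((hms ζ).2 hζ) h)
      exact quot_bound (κ := k) (G := b) (m := 0) (M := 0) (hka ζ hζ).continuousAt hk0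
        (hbc ζ hζ) le_rfl (Eventually.of_forall fun z => by simp)
        (Eventually.of_forall fun z => by simp)
  obtain ⟨C, hC⟩ : ∃ C : ℝ, ∀ z ∈ sphere (0 : ℂ) c, ‖b z‖ ≤ C * ‖k z‖ := by
    refine hK.induction_on (p := fun s => ∃ C : ℝ, ∀ z ∈ s, ‖b z‖ ≤ C * ‖k z‖) ?_ ?_ ?_ ?_
    · exact ⟨0, by simp⟩
    · rintro s t hst ⟨C, h1⟩
      exact ⟨C, fun z hz => h1 z (hst hz)⟩
    · rintro s t ⟨C, h1⟩ ⟨C', h1'⟩
      refine ⟨max C C', ?_⟩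
      rintro z (hz | hz)
      · exact (h1 z hz).trans (mul_le_mul_of_nonneg_right (le_max_left _ _) (norm_nonneg _))
      · exact (h1' z hz).trans (mul_le_mul_of_nonneg_right (le_max_right _ _) (norm_nonneg _))
    · intro ζ hζ
      obtain ⟨C, h1⟩ := hloc ζ ((hms ζ).1 hζ)
      exact ⟨{z | ‖b z‖ ≤ C * ‖k z‖}, mem_nhdsWithin_of_mem_nhds h1, C, fun z hz => hz⟩
  refine ⟨C, fun z hz => ?_⟩
  have h1 := hC z ((hms z).2 hz)
  have h2 : b z = (((∑ i, (x i : ℂ) * Bs i z).re : ℝ) : ℂ) := by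
    rw [hb]
    simp only [hbiv _ z hz, Complex.re_sum, Complex.ofReal_sum, Complex.re_ofReal_mul,
      Complex.ofReal_mul]
  have h3 : 0 ≤ 1 - ‖Θ z‖ ^ 2 := by
    have := pow_le_one₀ (n := 2) (norm_nonneg _) (hle z hz)
    linarith
  rw [h2, hkv z hz, Complex.norm_real, Complex.norm_real, Real.norm_eq_abs, Real.norm_eq_abs,
    abs_of_nonneg h3] at h1
  exact h1

end Pool.Agent.Helper23.KU
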